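import Mathlib
import Pool.Agent.H.MP_8f98a9_co.B

set_option autoImplicit false

namespace Pool.Agent.Results.MP_8f98a9_co.GammaCounter
open Pool.Agent.H.MP_8f98a9_co

/-- A three-dimensional lattice polytope with `L(P) ≥ Γ_P + 1` that is not integrally closed. -/
theorem result :
    ∃ P : Set (R 3), IsLatticePolytope P ∧ Gamma P + 1 ≤ (L P : ℝ) ∧ ¬ IntClosed P := main

end Pool.Agent.Results.MP_8f98a9_co.GammaCounter
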